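import Pool.Agent.W566.MZ.Stmts

/-!
# MZ-K3 (MP_aa8fd2_nt): square roots in the Kummer tower have even valuations outside 2

Let `w` be an extension to `Ω` of the valuation of a prime `v ∤ 2` of `L`.  A maximal
intermediate field with the same value group as `L` is closed under square roots of 2-units.
-/

set_option autoImplicit false

namespace Pool.Agent.W47.MZK3

open NumberField IsDedekindDomain MZ

section Step

variable {L Ω : Type} [Field L] [Field Ω] [Algebra L Ω]

/-- `M + M y` is a field when `y² ∈ M`. -/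
noncomputable def ext2 (M : IntermediateField L Ω) (x y : Ω) (hx : x ∈ M) (hy : y ^ 2 = x) :
    IntermediateField L Ω where
  carrier := {z | ∃ α ∈ M, ∃ β ∈ M, z = α + β * y}
  mul_mem' := by
    rintro z w ⟨a, ha, b, hb, rfl⟩ ⟨c, hc, d, hd, rfl⟩
    refine ⟨a * c + b * d * x, M.add_mem (M.mul_mem ha hc) (M.mul_mem (M.mul_mem hb hd) hx),
      a * d + b * c, M.add_mem (M.mul_mem ha hd) (M.mul_mem hb hc), ?_⟩
    rw [← hy]; ring
  add_mem' := by
    rintro z w ⟨a, ha, b, hb, rfl⟩ ⟨c, hc, d, hd, rfl⟩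
    exact ⟨a + c, M.add_mem ha hc, b + d, M.add_mem hb hd, by ring⟩
  algebraMap_mem' r := ⟨algebraMap L Ω r, M.algebraMap_mem r, 0, M.zero_mem, by ring⟩
  inv_mem' := by
    rintro z ⟨a, ha, b, hb, rfl⟩
    by_cases h1 : a - b * y = 0
    · have h2 : a + b * y = 2 * a := by
        have : a = b * y := by linear_combination h1
        rw [← this]; ring
      refine ⟨(2 * a)⁻¹, M.inv_mem (M.mul_mem ?_ ha), 0, M.zero_mem, by rw [h2]; ring⟩
      have := M.algebraMap_mem 2
      simpa using this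
    · by_cases h0 : a + b * y = 0
      · refine ⟨0, M.zero_mem, 0, M.zero_mem, ?_⟩
        rw [h0]; simp
      · have h3 : a ^ 2 - b ^ 2 * x ≠ 0 := by
          have : a ^ 2 - b ^ 2 * x = (a + b * y) * (a - b * y) := by rw [← hy]; ring
          rw [this]; exact mul_ne_zero h0 h1
        have h4 : a ^ 2 - b ^ 2 * x ∈ M :=
          M.sub_mem (pow_mem ha 2) (M.mul_mem (pow_mem hb 2) hx)
        refine ⟨a * (a ^ 2 - b ^ 2 * x)⁻¹, M.mul_mem ha (M.inv_mem h4),
          -b * (a ^ 2 - b ^ 2 * x)⁻¹, M.mul_mem (M.neg_mem hb) (M.inv_mem h4), ?_⟩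
        have : a ^ 2 - b ^ 2 * x = (a + b * y) * (a - b * y) := by rw [← hy]; ring
        field_simp
        rw [this]; ring

lemma le_ext2 (M : IntermediateField L Ω) (x y : Ω) (hx : x ∈ M) (hy : y ^ 2 = x) :
    M ≤ ext2 M x y hx hy := fun a ha => ⟨a, ha, 0, M.zero_mem, by ring⟩

lemma mem_ext2 (M : IntermediateField L Ω) (x y : Ω) (hx : x ∈ M) (hy : y ^ 2 = x) :
    y ∈ ext2 M x y hx hy := ⟨0, M.zero_mem, 1, M.one_mem, by ring⟩

/-- The value group of `M` is that of `L`. -/
def SameVal (B : ValuationSubring Ω) (M : IntermediateField L Ω) : Prop :=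
  ∀ x ∈ M, x ≠ 0 → ∃ b : L, B.valuation x = B.valuation (algebraMap L Ω b)

lemma val_mul_le {Γ : Type*} [LinearOrderedCommGroupWithZero Γ] {a b : Γ} (ha : a < 1)
    (hb : b ≤ 1) : a * b < 1 := by
  calc a * b ≤ a * 1 := by gcongr
    _ = a := mul_one a
    _ < 1 := ha

lemma sameVal_ext2 (B : ValuationSubring Ω) (h2 : B.valuation 2 = 1)
    (M : IntermediateField L Ω) (hM : SameVal B M) (x y : Ω) (hx : x ∈ M) (hy : y ^ 2 = x)
    (hx1 : B.valuation x = 1) : SameVal B (ext2 M x y hx hy) := by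
  have hy1 : B.valuation y = 1 := by
    have : B.valuation y ^ 2 = 1 := by rw [← map_pow, hy, hx1]
    exact pow_eq_one_iff_of_nonneg zero_le' two_ne_zero |>.mp this
  -- normalised case
  have key : ∀ a ∈ M, ∀ b ∈ M, B.valuation a ≤ 1 → B.valuation b ≤ 1 →
      (B.valuation a = 1 ∨ B.valuation b = 1) → a + b * y ≠ 0 →
      ∃ c ∈ M, c ≠ 0 ∧ B.valuation (a + b * y) = B.valuation c := by
    intro a ha b hb ha1 hb1 hab h0
    have hby : B.valuation (b * y) ≤ 1 := by rw [map_mul, hy1, mul_one]; exact hb1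
    have hp : B.valuation (a + b * y) ≤ 1 := (B.valuation.map_add_le ha1 hby)
    have hm : B.valuation (a - b * y) ≤ 1 := (B.valuation.map_sub_le ha1 hby)
    rcases hp.lt_or_eq with hp' | hp'
    · have hm' : B.valuation (a - b * y) = 1 := by
        rcases hm.lt_or_eq with hm' | hm'
        · exfalso
          have e1 : B.valuation ((a + b * y) + (a - b * y)) < 1 :=
            B.valuation.map_add_lt hp' hm'
          have e2 : B.valuation ((a + b * y) - (a - b * y)) < 1 :=
            lt_of_le_of_lt (B.valuation.map_sub _ _) (max_lt hp' hm')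
          have f1 : (a + b * y) + (a - b * y) = 2 * a := by ring
          have f2 : (a + b * y) - (a - b * y) = 2 * (b * y) := by ring
          rw [f1, map_mul, h2, one_mul] at e1
          rw [f2, map_mul, h2, one_mul, map_mul, hy1, mul_one] at e2
          rcases hab with h | h
          · exact absurd h e1.ne
          · exact absurd h e2.ne
        · exact hm'
      have hprod : (a + b * y) * (a - b * y) = a ^ 2 - b ^ 2 * x := by rw [← hy]; ring
      refine ⟨a ^ 2 - b ^ 2 * x, M.sub_mem (pow_mem ha 2) (M.mul_mem (pow_mem hb 2) hx),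
        ?_, ?_⟩
      · rw [← hprod]
        refine mul_ne_zero h0 ?_
        intro h
        rw [h, map_zero] at hm'
        exact zero_ne_one hm'
      · have e := congrArg B.valuation hprod
        rw [map_mul, hm', mul_one] at e
        exact e
    · exact ⟨1, M.one_mem, one_ne_zero, by rw [hp', map_one]⟩
  rintro z ⟨a, ha, b, hb, rfl⟩ hz
  -- choose the larger coefficient
  have hsc : ∃ g ∈ M, g ≠ 0 ∧ B.valuation (a * g⁻¹) ≤ 1 ∧ B.valuation (b * g⁻¹) ≤ 1 ∧
      (B.valuation (a * g⁻¹) = 1 ∨ B.valuation (b * g⁻¹) = 1) := by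
    rcases le_total (B.valuation a) (B.valuation b) with h | h
    · have hb0 : b ≠ 0 := by
        rintro rfl
        rw [map_zero, le_zero_iff, map_eq_zero] at h
        apply hz; rw [h]; ring
      refine ⟨b, hb, hb0, ?_, ?_, Or.inr ?_⟩
      · rw [map_mul, map_inv₀]
        have hvb : B.valuation b ≠ 0 := (map_ne_zero _).mpr hb0
        calc B.valuation a * (B.valuation b)⁻¹ ≤ B.valuation b * (B.valuation b)⁻¹ := by gcongr
          _ = 1 := mul_inv_cancel₀ hvb
      · rw [mul_inv_cancel₀ hb0, map_one]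
      · rw [mul_inv_cancel₀ hb0, map_one]
    · have ha0 : a ≠ 0 := by
        rintro rfl
        rw [map_zero, le_zero_iff, map_eq_zero] at h
        apply hz; rw [h]; ring
      refine ⟨a, ha, ha0, ?_, ?_, Or.inl ?_⟩
      · rw [mul_inv_cancel₀ ha0, map_one]
      · rw [map_mul, map_inv₀]
        have hva : B.valuation a ≠ 0 := (map_ne_zero _).mpr ha0
        calc B.valuation b * (B.valuation a)⁻¹ ≤ B.valuation a * (B.valuation a)⁻¹ := by gcongr
          _ = 1 := mul_inv_cancel₀ hva
      · rw [mul_inv_cancel₀ ha0, map_one]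
  obtain ⟨g, hg, hg0, h1, h2', h3⟩ := hsc
  have hfac : a + b * y = g * (a * g⁻¹ + b * g⁻¹ * y) := by field_simp
  have hne : a * g⁻¹ + b * g⁻¹ * y ≠ 0 := by
    intro h; rw [h, mul_zero] at hfac; exact hz hfac
  obtain ⟨c, hc, hc0, hcv⟩ := key (a * g⁻¹) (M.mul_mem ha (M.inv_mem hg)) (b * g⁻¹)
    (M.mul_mem hb (M.inv_mem hg)) h1 h2' h3 hne
  obtain ⟨d, hd⟩ := hM (g * c) (M.mul_mem hg hc) (mul_ne_zero hg0 hc0)
  refine ⟨d, ?_⟩
  rw [hfac, map_mul, hcv, ← map_mul, hd]

end Step

lemma mem_of_int {Ω : Type} [Field Ω] (B : ValuationSubring Ω) {x : Ω} (hx : IsIntegral ℤ x) :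
    B.valuation x ≤ 1 := by
  rw [B.valuation_le_one_iff]
  have h : IsIntegral B x := by
    have := hx.tower_top (A := B)
    exact this
  obtain ⟨z, hz⟩ := IsIntegrallyClosed.isIntegral_iff.mp h
  rw [← hz]
  exact z.2

lemma twoUnit_val {Ω : Type} [Field Ω] (B : ValuationSubring Ω) (h2 : B.valuation 2 = 1) {x : Ω}
    (hx : TwoUnit x) : B.valuation x = 1 := by
  obtain ⟨hx0, n, h3, h4⟩ := hx
  have e3 := mem_of_int B h3
  have e4 := mem_of_int B h4
  rw [map_mul, map_pow, h2, one_pow, one_mul] at e3 e4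
  rw [map_inv₀] at e4
  refine le_antisymm e3 ?_
  have hv : B.valuation x ≠ 0 := (map_ne_zero _).mpr hx0
  exact (inv_le_one₀ (zero_lt_iff.mpr hv)).mp e4

theorem k3 : StmK3 := by
  intro L Ω _ _ _ _ _ a y ha hy hya v hv
  obtain ⟨B, hB, hloc⟩ := IsLocalRing.exists_factor_valuationRing
    ((algebraMap L Ω).comp (v.valuation L).valuationSubring.subtype)
  -- comparison of the two valuations
  have F1 : ∀ z : L, v.valuation L z = 1 → B.valuation (algebraMap L Ω z) = 1 := by
    intro z hz
    have hz0 : z ≠ 0 := by rintro rfl; rw [map_zero] at hz; exact zero_ne_one hz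
    have hm : z ∈ (v.valuation L).valuationSubring := by
      rw [Valuation.mem_valuationSubring_iff]; exact hz.le
    have hm' : z⁻¹ ∈ (v.valuation L).valuationSubring := by
      rw [Valuation.mem_valuationSubring_iff, map_inv₀, hz, inv_one]
    have g1 : B.valuation (algebraMap L Ω z) ≤ 1 :=
      (B.valuation_le_one_iff _).mpr (hB ⟨z, hm⟩)
    have g2 : B.valuation (algebraMap L Ω z⁻¹) ≤ 1 :=
      (B.valuation_le_one_iff _).mpr (hB ⟨z⁻¹, hm'⟩)
    refine le_antisymm g1 ?_
    rw [map_inv₀, map_inv₀] at g2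
    have hv' : B.valuation (algebraMap L Ω z) ≠ 0 := by
      rw [map_ne_zero]; simpa using hz0
    exact (inv_le_one₀ (zero_lt_iff.mpr hv')).mp g2
  have F2 : ∀ z : L, v.valuation L z < 1 → B.valuation (algebraMap L Ω z) < 1 := by
    intro z hz
    have hm : z ∈ (v.valuation L).valuationSubring := by
      rw [Valuation.mem_valuationSubring_iff]; exact hz.le
    have g1 : B.valuation (algebraMap L Ω z) ≤ 1 :=
      (B.valuation_le_one_iff _).mpr (hB ⟨z, hm⟩)
    refine lt_of_le_of_ne g1 ?_
    intro h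
    have hu : IsUnit (((algebraMap L Ω).comp
        (v.valuation L).valuationSubring.subtype).codRestrict B.toSubring hB ⟨z, hm⟩) := by
      have := (B.valuation_eq_one_iff ⟨algebraMap L Ω z, hB ⟨z, hm⟩⟩).mpr h
      exact this
    have hu' := hloc.map_nonunit _ hu
    have hz1 : v.valuation L z = 1 := by
      obtain ⟨u, hu⟩ := hu'
      have h1 : (u.1 : L) = z := by rw [hu]
      have h3 : v.valuation L (u.1 : L) * v.valuation L ((u⁻¹).1 : L) = 1 := by
        rw [← map_mul]
        have : ((u.1 : L)) * ((u⁻¹).1 : L) = 1 :=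
          congrArg (fun t : (v.valuation L).valuationSubring => (t : L)) u.mul_inv
        rw [this, map_one]
      have h4 : v.valuation L ((u⁻¹).1 : L) ≤ 1 :=
        ((v.valuation L).mem_valuationSubring_iff _).mp (u⁻¹).1.2
      rw [h1] at h3
      exact absurd h3 (val_mul_le hz h4).ne
    exact absurd hz1 hz.ne
  have F3 : ∀ z : L, B.valuation (algebraMap L Ω z) = 1 → v.valuation L z = 1 := by
    intro z hz
    have hz0 : z ≠ 0 := by
      rintro rfl; rw [map_zero, map_zero] at hz; exact zero_ne_one hz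
    rcases lt_trichotomy (v.valuation L z) 1 with h | h | h
    · exact absurd hz (F2 z h).ne
    · exact h
    · exfalso
      have h' : v.valuation L z⁻¹ < 1 := by
        rw [map_inv₀]; exact inv_lt_one_of_one_lt₀ h
      have := F2 _ h'
      rw [map_inv₀, map_inv₀, hz, inv_one] at this
      exact lt_irrefl _ this
  have h2 : B.valuation 2 = 1 := by
    have := F1 2 (by
      have := (v.valuation_eq_one_iff_notMem (K := L) (r := 2)).mpr hv
      rwa [map_ofNat] at this)
    rwa [map_ofNat] at this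
  -- Zorn
  obtain ⟨M, -, hM⟩ := zorn_le_nonempty₀ {M : IntermediateField L Ω | SameVal B M} (by
    intro c hc hchain M₀ hM₀
    haveI : Nonempty c := ⟨⟨M₀, hM₀⟩⟩
    have hdir : Directed (· ≤ ·) (fun M : c => (M : IntermediateField L Ω)) := by
      intro M N
      rcases hchain.total M.2 N.2 with h | h
      · exact ⟨N, h, le_rfl⟩
      · exact ⟨M, le_rfl, h⟩
    refine ⟨⨆ M : c, (M : IntermediateField L Ω), ?_, fun M hM => le_iSup
      (fun M : c => (M : IntermediateField L Ω)) ⟨M, hM⟩⟩
    intro x hx hx0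
    have : x ∈ ((⨆ M : c, (M : IntermediateField L Ω) : IntermediateField L Ω) : Set Ω) := hx
    rw [IntermediateField.coe_iSup_of_directed hdir, Set.mem_iUnion] at this
    obtain ⟨N, hN⟩ := this
    exact hc N.2 x hN hx0) ⊥ (by
    intro x hx hx0
    obtain ⟨b, rfl⟩ := IntermediateField.mem_bot.mp hx
    exact ⟨b, rfl⟩)
  have hcl : KumClosed M := by
    intro x y' hx hxu hy'
    have hs := sameVal_ext2 B h2 M hM.prop x y' hx hy' (twoUnit_val B h2 hxu)
    have := hM.le_of_ge hs (le_ext2 M x y' hx hy')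
    exact this (mem_ext2 M x y' hx hy')
  have hyM : y ∈ M := (sInf_le hcl : Linf L Ω ≤ M) hy
  have hy0 : y ≠ 0 := by
    rintro rfl
    apply ha
    have : algebraMap L Ω a = 0 := by rw [← hya]; ring
    simpa using this
  obtain ⟨b, hb⟩ := hM.prop y hyM hy0
  have hb0 : b ≠ 0 := by
    rintro rfl
    rw [map_zero, map_zero, map_eq_zero] at hb
    exact hy0 hb
  have hq : B.valuation (algebraMap L Ω (a * (b ^ 2)⁻¹)) = 1 := by
    rw [map_mul, map_inv₀, map_pow, map_mul, map_inv₀, map_pow, ← hya, map_pow, hb]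
    have : B.valuation (algebraMap L Ω b) ≠ 0 := by
      rw [map_ne_zero]; simpa using hb0
    exact mul_inv_cancel₀ (pow_ne_zero 2 this)
  have hq' := F3 _ hq
  refine ⟨v.valuation L b, ?_⟩
  rw [map_mul, map_inv₀, map_pow] at hq'
  have hvb : v.valuation L b ≠ 0 := (map_ne_zero _).mpr hb0
  have := mul_inv_eq_one₀ (pow_ne_zero 2 hvb) |>.mp hq'
  rw [this, sq]

end Pool.Agent.W47.MZK3


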